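import Pool.Agent.Helper27.VF.Goals

/-!
# Project VF, packet TOE: cuts of `G` give cuts of the torso
-/

set_option autoImplicit false

namespace Pool.Agent.Helper4.VF

open Pool.Agent.Helper27.VF

universe u

/-- The neighbours in `K` of the component of `z` outside `K`. -/
def NN {W : Type u} (G : SimpleGraph W) (K : Set W) (z : W) : Set W :=
  {y | y ∈ K ∧ ∃ z', Out G K z z' ∧ G.Adj z' y}

/-- The exceptional vertices. -/
def XX {W : Type u} (G : SimpleGraph W) (K : Set W) (S : Set W) : Set W :=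
  S ∪ ⋃ z ∈ S ∩ Kᶜ, NN G K z

theorem XX_finite {W : Type u} {G : SimpleGraph W} {K : Set W} (hN : Nar G K) {S : Set W}
    (hS : S.Finite) : (XX G K S).Finite := by
  refine hS.union ?_
  refine Set.Finite.biUnion (hS.inter_of_left _) ?_
  intro z hz
  exact hN z hz.2

theorem no_edge {W : Type u} {G : SimpleGraph W} {K : Set W} {c : Set W × Set W}
    (hc : IsCut G c) {x y : W} (hx : x ∈ c.1) (hy : y ∈ c.2) (hyK : y ∈ K)
    (hyX : y ∉ XX G K (sep c)) {z : W} (hz : Out G K x z) (hzy : G.Adj z y) : False := by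
  have key : ∀ z, Out G K x z → z ∈ c.1 ∨ ∃ q, q ∈ sep c ∧ q ∉ K ∧ Out G K q z := by
    intro z hz
    unfold Out at hz
    induction hz with
    | refl => exact Or.inl hx
    | @tail a b _ hab ih =>
      rcases ih with ih | ⟨q, hq1, hq2, hq3⟩
      · by_cases h1 : b ∈ c.1
        · exact Or.inl h1
        · right
          have h2 : b ∉ c.2 := fun h2 => hc.no a ih b h2 hab.1
          exact ⟨b, mem_sep.2 ⟨h1, h2⟩, hab.2, Relation.ReflTransGen.refl⟩
      · right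
        exact ⟨q, hq1, hq2, Relation.ReflTransGen.tail hq3 hab⟩
  rcases key z hz with h | ⟨q, hq1, hq2, hq3⟩
  · exact hc.no z h y hy hzy
  · apply hyX
    right
    simp only [Set.mem_iUnion]
    exact ⟨q, ⟨hq1, hq2⟩, hyK, z, hq3, hzy⟩

theorem toe : ToeStmt.{u} := by
  intro W G K hN c hc
  refine ⟨({y | (y : W) ∈ c.1 ∧ (y : W) ∉ XX G K (sep c)},
    {y | (y : W) ∈ c.2 ∧ (y : W) ∉ XX G K (sep c)}), ⟨?_, ?_, ?_⟩,
    XX G K (sep c), XX_finite hN hc.fin, ?_, ?_⟩
  · intro y h1 h2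
    exact hc.disj _ h1.1 h2.1
  · have hf : (Subtype.val ⁻¹' XX G K (sep c) : Set K).Finite :=
      (XX_finite hN hc.fin).preimage Subtype.val_injective.injOn
    refine hf.subset ?_
    intro y hy
    rw [mem_sep] at hy
    by_contra hyX
    have hyX' : (y : W) ∉ XX G K (sep c) := hyX
    have h1 : (y : W) ∉ c.1 := fun h => hy.1 ⟨h, hyX'⟩
    have h2 : (y : W) ∉ c.2 := fun h => hy.2 ⟨h, hyX'⟩
    exact hyX' (Or.inl (mem_sep.2 ⟨h1, h2⟩))
  · rintro x ⟨hx1, hx2⟩ y ⟨hy1, hy2⟩ hxy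
    unfold TG at hxy
    rw [SimpleGraph.fromRel_adj] at hxy
    rcases hxy.2 with ⟨z, hz, hzy⟩ | ⟨z, hz, hzy⟩
    · exact no_edge hc hx1 hy1 y.2 hy2 hz hzy
    · have hx2' : (x : W) ∉ XX G K (sep (c.2, c.1)) := by rwa [sep_swap]
      exact no_edge hc.swap hy1 hx1 x.2 hx2' hz hzy
  · intro y h1 h2
    exact ⟨h1, h2⟩
  · intro y h1 h2
    exact ⟨h1, h2⟩

end Pool.Agent.Helper4.VF
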